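import Pool.Agent.W793.SCH.Stm

/-!
# The adjoint action preserves the scalar product of the projections to the Lie algebra
-/

open Matrix

namespace Pool.Agent.W690.SCH

open Pool.Agent.W793.SCH

theorem t_AD : S_AD := by
  intro N n G X ex hex hX hspan h A B
  set U : Matrix (Fin N) (Fin N) ℂ :=
    ((h : unitaryGroup (Fin N) ℂ) : Matrix (Fin N) (Fin N) ℂ) with hU
  have hUinv : (((h⁻¹ : G) : unitaryGroup (Fin N) ℂ) : Matrix (Fin N) (Fin N) ℂ) = Uᴴ := rfl
  rw [hUinv]
  have h1 : U * Uᴴ = 1 := mem_unitaryGroup_iff.1 (h : unitaryGroup (Fin N) ℂ).2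
  have h2 : Uᴴ * U = 1 := mem_unitaryGroup_iff'.1 (h : unitaryGroup (Fin N) ℂ).2
  have hinv : U⁻¹ = Uᴴ := Matrix.inv_eq_left_inv h2
  have hunit : IsUnit U := ⟨⟨U, Uᴴ, h1, h2⟩, rfl⟩
  have hY : ∀ a, Uᴴ * X a * U ∈ Submodule.span ℝ (Set.range X) := by
    intro a
    apply hspan
    intro t
    refine ⟨h⁻¹ * ex a t * h, ?_⟩
    have e1 : t • (Uᴴ * X a * U) = U⁻¹ * (t • X a) * U := by
      rw [hinv, Matrix.mul_smul, Matrix.smul_mul]
    rw [e1, Matrix.exp_conj' U _ hunit, ← hex a t, hinv]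
    rfl
  have hY' : ∀ a, ∃ c : Fin n → ℝ, ∑ b, c b • X b = Uᴴ * X a * U := fun a =>
    (Submodule.mem_span_range_iff_exists_fun ℝ).1 (hY a)
  choose O hO using hY'
  have lin : ∀ (a : Fin n) (M : Matrix (Fin N) (Fin N) ℂ),
      (trace ((Uᴴ * X a * U)ᴴ * M)).re = ∑ b, O a b * (trace ((X b)ᴴ * M)).re := by
    intro a M
    rw [← hO a, Matrix.conjTranspose_sum, Finset.sum_mul, Matrix.trace_sum, Complex.re_sum]
    refine Finset.sum_congr rfl fun b _ => ?_
    rw [Matrix.conjTranspose_smul, Matrix.smul_mul, Matrix.trace_smul, Complex.real_smul]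
    simp
  have linr : ∀ (a : Fin n) (M : Matrix (Fin N) (Fin N) ℂ),
      (trace (M * (Uᴴ * X a * U))).re = ∑ b, O a b * (trace (M * X b)).re := by
    intro a M
    rw [← hO a, Finset.mul_sum, Matrix.trace_sum, Complex.re_sum]
    refine Finset.sum_congr rfl fun b _ => ?_
    rw [Matrix.mul_smul, Matrix.trace_smul, Complex.real_smul]
    simp
  have orth : ∀ a b, (trace ((Uᴴ * X a * U)ᴴ * (Uᴴ * X b * U))).re = if a = b then 1 else 0 := by
    intro a b
    rw [← hX a b]
    congr 1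
    have : (Uᴴ * X a * U)ᴴ * (Uᴴ * X b * U) = Uᴴ * ((X a)ᴴ * X b) * U := by
      rw [Matrix.conjTranspose_mul, Matrix.conjTranspose_mul, Matrix.conjTranspose_conjTranspose]
      calc Uᴴ * ((X a)ᴴ * U) * (Uᴴ * X b * U) = Uᴴ * ((X a)ᴴ * (U * Uᴴ) * X b) * U := by
            simp only [Matrix.mul_assoc]
        _ = _ := by rw [h1, Matrix.mul_one]
    rw [this, Matrix.trace_mul_comm, ← Matrix.mul_assoc, h1, Matrix.one_mul]
  have hOO : (Matrix.of O) * (Matrix.of O)ᵀ = 1 := by
    ext a b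
    rw [Matrix.one_apply, ← orth a b, lin]
    rw [Matrix.mul_apply]
    refine Finset.sum_congr rfl fun c _ => ?_
    rw [linr]
    simp only [Matrix.of_apply, Matrix.transpose_apply]
    congr 1
    simp [hX]
  have hOO' : (Matrix.of O)ᵀ * (Matrix.of O) = 1 := mul_eq_one_comm.1 hOO
  have key : ∀ (a : Fin n) (M : Matrix (Fin N) (Fin N) ℂ),
      (trace ((X a)ᴴ * (U * M * Uᴴ))).re = ∑ b, O a b * (trace ((X b)ᴴ * M)).re := by
    intro a M
    rw [← lin]
    congr 1
    rw [Matrix.conjTranspose_mul, Matrix.conjTranspose_mul, Matrix.conjTranspose_conjTranspose]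
    rw [show (X a)ᴴ * (U * M * Uᴴ) = ((X a)ᴴ * U * M) * Uᴴ by simp only [Matrix.mul_assoc],
      Matrix.trace_mul_comm]
    simp only [Matrix.mul_assoc]
  simp only [key]
  calc ∑ a, (∑ b, O a b * (trace ((X b)ᴴ * A)).re) * (∑ c, O a c * (trace ((X c)ᴴ * B)).re)
      = ∑ a, ∑ b, ∑ c, O a b * O a c * ((trace ((X b)ᴴ * A)).re * (trace ((X c)ᴴ * B)).re) := by
        refine Finset.sum_congr rfl fun a _ => ?_
        rw [Finset.sum_mul_sum]
        refine Finset.sum_congr rfl fun b _ => Finset.sum_congr rfl fun c _ => ?_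
        ring
    _ = ∑ b, ∑ c, (∑ a, O a b * O a c) *
          ((trace ((X b)ᴴ * A)).re * (trace ((X c)ᴴ * B)).re) := by
        rw [Finset.sum_comm]
        refine Finset.sum_congr rfl fun b _ => ?_
        rw [Finset.sum_comm]
        refine Finset.sum_congr rfl fun c _ => ?_
        rw [Finset.sum_mul]
    _ = ∑ b, ∑ c, (if b = c then (1 : ℝ) else 0) *
          ((trace ((X b)ᴴ * A)).re * (trace ((X c)ᴴ * B)).re) := by
        refine Finset.sum_congr rfl fun b _ => Finset.sum_congr rfl fun c _ => ?_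
        congr 1
        have := congrFun (congrFun hOO' b) c
        rw [Matrix.mul_apply, Matrix.one_apply] at this
        simpa using this
    _ = _ := by simp

end Pool.Agent.W690.SCH
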